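import Mathlib
import Pool.Agent.Helper80.KC.Goals

set_option autoImplicit false

open Module

namespace Pool.Agent.Helper81.KC

open Pool.Agent.Helper80.KC

theorem goalIND : G_IND := by
  intro V _ _ _ a M N₁ N₂ N₃ ha hM _ _ _ h12 h3 haM hb1 hb2 hb3
  have hspan : ∀ x : V, x ∈ M → x ∈ Submodule.span ℝ {a} → x = 0 := by
    intro x hx hxa
    obtain ⟨c, rfl⟩ := Submodule.mem_span_singleton.1 hxa
    by_cases hc : c = 0
    · simp [hc]
    · exfalso; apply haM
      have := M.smul_mem c⁻¹ hx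
      rwa [smul_smul, inv_mul_cancel₀ hc, one_smul] at this
  have hind : ∀ d ∈ M ⊓ N₁, ∀ b ∈ M ⊓ N₂, ∀ c ∈ M ⊓ N₃, d + b + c = 0 → d = 0 ∧ b = 0 ∧ c = 0 := by
    intro d hd b hb c hc h0
    have hc0 : c = 0 := by
      apply hspan c hc.1
      rw [← h3]
      refine ⟨hc.2, ?_⟩
      have : c = -(d + b) := by
        rw [eq_neg_iff_add_eq_zero, add_comm]; exact h0
      rw [this]
      exact Submodule.neg_mem _ (Submodule.add_mem_sup hd.2 hb.2)
    have hb0 : b = 0 := by
      apply hspan b hb.1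
      rw [← h12]
      refine ⟨?_, hb.2⟩
      have : b = -d := by
        rw [eq_neg_iff_add_eq_zero, add_comm]
        rw [hc0, add_zero] at h0; exact h0
      rw [this]; exact Submodule.neg_mem _ hd.2
    have hd0 : d = 0 := by rw [hc0, hb0, add_zero, add_zero] at h0; exact h0
    exact ⟨hd0, hb0, hc0⟩
  let D1 : Submodule ℝ V := M ⊓ N₁
  let D2 : Submodule ℝ V := M ⊓ N₂
  let D3 : Submodule ℝ V := M ⊓ N₃
  let φ : (D1 × D2 × D3) →ₗ[ℝ] M :=
    LinearMap.codRestrict M
      (D1.subtype.coprod (D2.subtype.coprod D3.subtype))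
      (fun x => by
        simp only [LinearMap.coprod_apply, Submodule.subtype_apply]
        exact M.add_mem x.1.2.1 (M.add_mem x.2.1.2.1 x.2.2.2.1))
  have hφ : Function.Injective φ := by
    rw [← LinearMap.ker_eq_bot, LinearMap.ker_eq_bot']
    rintro ⟨⟨d, hd⟩, ⟨b, hb⟩, ⟨c, hc⟩⟩ h
    have h' : d + b + c = 0 := by
      have := congrArg Subtype.val h
      simp only [φ, LinearMap.codRestrict_apply, LinearMap.coprod_apply,
        Submodule.subtype_apply, ZeroMemClass.coe_zero] at this
      rw [add_assoc]; exact this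
    obtain ⟨h1, h2, h3⟩ := hind d hd b hb c hc h'
    subst h1; subst h2; subst h3
    rfl
  have hle := LinearMap.finrank_le_finrank_of_injective hφ
  rw [finrank_prod, finrank_prod, hM] at hle
  have p1 : 1 ≤ finrank ℝ D1 := by
    by_contra hcon
    apply hb1
    have hz : finrank ℝ D1 = 0 := by omega
    exact Submodule.finrank_eq_zero.1 hz
  have p2 : 1 ≤ finrank ℝ D2 := by
    by_contra hcon
    apply hb2
    have hz : finrank ℝ D2 = 0 := by omega
    exact Submodule.finrank_eq_zero.1 hz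
  have p3 : 1 ≤ finrank ℝ D3 := by
    by_contra hcon
    apply hb3
    have hz : finrank ℝ D3 = 0 := by omega
    exact Submodule.finrank_eq_zero.1 hz
  refine ⟨?_, ?_, ?_⟩
  · change finrank ℝ D1 ≤ 1; omega
  · change finrank ℝ D2 ≤ 1; omega
  · change finrank ℝ D3 ≤ 1; omega

end Pool.Agent.Helper81.KC
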